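import Pool.Agent.W2helper61.PF.Stm

/-!
# Project PF (helper61): the greedy choice of a legal column (piece LEX)
-/

set_option autoImplicit false

namespace Pool.Agent.W2helper69.PF

open Pool.Agent.H620R2.Gauge Pool.Agent.W2helper61.PF

section comb

variable {C : CS}

/-- the value of a claim depends on the shorter strings -/
theorem st_congr {y : List Bool} (hy : C.Cl y) {O O' : Oracle}
    (h : ∀ u : List Bool, u.length < y.length → O u = O' u) : C.St y O ↔ C.St y O' := by
  have key : ∀ O O' : Oracle, (∀ u : List Bool, u.length < y.length → O u = O' u) →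
      C.St y O → C.St y O' := by
    intro O O' h hO
    by_contra hc
    obtain ⟨Q, -, h2, h3⟩ := C.crt y hy O' hc
    exact h3 O (fun u hu => h u (h2 u hu)) hO
  exact ⟨key O O' h, key O' O fun u hu => (h u hu).symm⟩

/-- comparison of two oracles at one string -/
theorem comb_eq {A A' O O' : Oracle} (h : C.IsComb A O) (h' : C.IsComb A' O') {u : List Bool}
    (h1 : ∀ v, u = false :: v → A v = A' v)
    (h2 : ∀ v, u = true :: v → C.Cl v → (C.St v O ↔ C.St v O')) : O u = O' u := by
  rcases u with _ | ⟨b, v⟩
  · rw [h.1, h'.1]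
  · cases b
    · rw [h.2.1, h'.2.1]
      exact h1 v rfl
    · rw [Bool.eq_iff_iff, h.2.2, h'.2.2]
      constructor
      · rintro ⟨h3, h4⟩
        exact ⟨h3, (h2 v rfl h3).1 h4⟩
      · rintro ⟨h3, h4⟩
        exact ⟨h3, (h2 v rfl h3).2 h4⟩

theorem comb_unique {A O O' : Oracle} (h : C.IsComb A O) (h' : C.IsComb A O') : O = O' := by
  have key : ∀ n : ℕ, ∀ u : List Bool, u.length < n → O u = O' u := by
    intro n
    induction n with
    | zero => intro u hu; omega
    | succ n ih =>
      intro u hu
      refine comb_eq h h' (fun v _ => rfl) fun v hv hc => ?_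
      subst hv
      rw [List.length_cons] at hu
      exact st_congr hc fun z hz => ih z (by omega)
  funext u
  exact key (u.length + 1) u (by omega)

open Classical in
/-- one step of the recursion -/
noncomputable def stepO (C : CS) (A O : Oracle) : Oracle := fun u =>
  match u with
  | [] => false
  | false :: y => A y
  | true :: y => decide (C.Cl y ∧ C.St y O)

theorem comb_exists (C : CS) (A : Oracle) : ∃ O : Oracle, C.IsComb A O := by
  classical
  let G : ℕ → Oracle := fun n => (stepO C A)^[n] (fun _ => false)
  have hG : ∀ n, G (n + 1) = stepO C A (G n) := fun n => Function.iterate_succ_apply' _ _ _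
  have h1 : ∀ n : ℕ, ∀ u : List Bool, u.length < n → G (n + 1) u = G n u := by
    intro n
    induction n with
    | zero => intro u hu; omega
    | succ n ih =>
      intro u hu
      rw [show G (n + 1 + 1) u = stepO C A (G (n + 1)) u from congrFun (hG (n + 1)) u,
        show G (n + 1) u = stepO C A (G n) u from congrFun (hG n) u]
      rcases u with _ | ⟨b, v⟩
      · rfl
      · cases b
        · rfl
        · rw [List.length_cons] at hu
          change decide (C.Cl v ∧ C.St v (G (n + 1))) = decide (C.Cl v ∧ C.St v (G n))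
          rw [decide_eq_decide]
          constructor
          · rintro ⟨h3, h4⟩
            exact ⟨h3, (st_congr h3 fun z hz => ih z (by omega)).1 h4⟩
          · rintro ⟨h3, h4⟩
            exact ⟨h3, (st_congr h3 fun z hz => ih z (by omega)).2 h4⟩
  have h2 : ∀ (u : List Bool) (n : ℕ), u.length < n → G n u = G (u.length + 1) u := by
    intro u n hn
    induction n, hn using Nat.le_induction with
    | base => rfl
    | succ n hn ih => rw [h1 n u hn, ih]
  refine ⟨fun u => G (u.length + 1) u, ?_, ?_, ?_⟩
  · change G (0 + 1) [] = false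
    rw [hG]
    rfl
  · intro y
    change G ((false :: y).length + 1) (false :: y) = A y
    rw [hG]
    rfl
  · intro y
    change G ((true :: y).length + 1) (true :: y) = true ↔ _
    rw [hG]
    change decide (C.Cl y ∧ C.St y (G (true :: y).length)) = true ↔ _
    rw [decide_eq_true_iff]
    have h3 : C.Cl y → (C.St y (G (true :: y).length) ↔ C.St y (fun u => G (u.length + 1) u)) := by
      intro hy
      refine st_congr hy fun z hz => ?_
      rw [List.length_cons]
      exact h2 z _ (by omega)
    constructor
    · rintro ⟨h4, h5⟩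
      exact ⟨h4, (h3 h4).1 h5⟩
    · rintro ⟨h4, h5⟩
      exact ⟨h4, (h3 h4).2 h5⟩

end comb

/-- the tails of the strings beginning with `false` -/
def tl (Q : Finset (List Bool)) : Finset (List Bool) :=
  (Q.filter (fun u => u.head? = some false)).image List.tail

theorem mem_tl {Q : Finset (List Bool)} {v : List Bool} (h : false :: v ∈ Q) : v ∈ tl Q := by
  unfold tl
  rw [Finset.mem_image]
  exact ⟨false :: v, Finset.mem_filter.2 ⟨h, rfl⟩, rfl⟩

theorem card_tl (Q : Finset (List Bool)) : (tl Q).card ≤ Q.card :=
  Finset.card_image_le.trans (Finset.card_filter_le _ _)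

/-- the invariant of the greedy choice -/
structure Inv (C : CS) (Lg : Oracle → Prop) (L : ℕ) (cb : Oracle → Oracle)
    (D : Finset (List Bool)) (A : Oracle) (Z : Finset (List Bool)) : Prop where
  leg : Lg A
  card : Z.card ≤ D.card * L
  same : ∀ A', Lg A' → (∀ z ∈ Z, A' z = A z) → ∀ y ∈ D, (C.St y (cb A') ↔ C.St y (cb A))
  cert : ∀ y ∈ D, ¬ C.St y (cb A) → ∃ Q' : Finset (List Bool), (∀ u ∈ Q', u.length < y.length) ∧
    (∀ O', (∀ u ∈ Q', O' u = cb A u) → ¬ C.St y O') ∧ ∀ v, false :: v ∈ Q' → v ∈ Z

theorem step_inv {C : CS} {Lg : Oracle → Prop} {L : ℕ} {cb : Oracle → Oracle}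
    (hcb : ∀ A, C.IsComb A (cb A)) {D : Finset (List Bool)} {A : Oracle}
    {Z : Finset (List Bool)} (h : Inv C Lg L cb D A Z) {y : List Bool} (hy : C.Cl y)
    (hyL : y.length ≤ L) (hyD : y ∉ D)
    (hD : ∀ z ∈ D, ∀ v, C.Cl v → v.length < z.length → v ∈ D)
    (hD' : ∀ v, C.Cl v → v.length < y.length → v ∈ D) :
    ∃ A' Z', Inv C Lg L cb (insert y D) A' Z' := by
  classical
  by_cases hex : ∃ A', Lg A' ∧ (∀ z ∈ Z, A' z = A z) ∧ ¬ C.St y (cb A')
  · obtain ⟨A', hA', hagr, hst⟩ := hex
    obtain ⟨Q', hQ1, hQ2, hQ3⟩ := C.crt y hy (cb A') hst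
    have hsub : ∀ v, v ∈ Z → v ∈ Z ∪ tl Q' := fun v hv => Finset.mem_union_left _ hv
    have hDA : ∀ y' ∈ D, (C.St y' (cb A') ↔ C.St y' (cb A)) := h.same A' hA' hagr
    refine ⟨A', Z ∪ tl Q', hA', ?_, ?_, ?_⟩
    · rw [Finset.card_insert_of_notMem hyD, add_mul, one_mul]
      have h1 := Finset.card_union_le Z (tl Q')
      have h2 := card_tl Q'
      have h3 := h.card
      omega
    · intro A'' hA'' hagr' y' hy'
      have hDA' : ∀ y' ∈ D, (C.St y' (cb A'') ↔ C.St y' (cb A')) := by
        intro z hz
        rw [hDA z hz]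
        exact h.same A'' hA'' (fun v hv => by rw [hagr' v (hsub v hv), hagr v hv]) z hz
      rcases Finset.mem_insert.1 hy' with rfl | hy'
      · have h1 : ¬ C.St y' (cb A'') := by
          refine hQ3 _ fun u hu => ?_
          refine comb_eq (hcb A'') (hcb A') (fun v hv => ?_) fun v hv hc => ?_
          · subst hv
            exact hagr' v (Finset.mem_union_right _ (mem_tl hu))
          · subst hv
            have h2 := hQ2 _ hu
            rw [List.length_cons] at h2
            exact hDA' v (hD' v hc (by omega))
        exact ⟨fun h2 => (h1 h2).elim, fun h2 => (hst h2).elim⟩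
      · exact hDA' y' hy'
    · intro y' hy' hst'
      rcases Finset.mem_insert.1 hy' with rfl | hy'
      · exact ⟨Q', hQ2, hQ3, fun v hv => Finset.mem_union_right _ (mem_tl hv)⟩
      · obtain ⟨Q'', h1, h2, h3⟩ := h.cert y' hy' (fun h4 => hst' ((hDA y' hy').2 h4))
        refine ⟨Q'', h1, fun O' hO' => h2 O' fun u hu => ?_, fun v hv => hsub v (h3 v hv)⟩
        rw [hO' u hu]
        refine comb_eq (hcb A') (hcb A) (fun v hv => ?_) fun v hv hc => ?_
        · subst hv
          exact hagr v (h3 v hu)
        · subst hv
          have h5 := h1 _ hu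
          rw [List.length_cons] at h5
          exact hDA v (hD y' hy' v hc (by omega))
  · push Not at hex
    refine ⟨A, Z, h.leg, ?_, ?_, ?_⟩
    · rw [Finset.card_insert_of_notMem hyD, add_mul]
      have := h.card
      omega
    · intro A'' hA'' hagr' y' hy'
      rcases Finset.mem_insert.1 hy' with rfl | hy'
      · exact ⟨fun _ => hex A h.leg fun _ _ => rfl, fun _ => hex A'' hA'' hagr'⟩
      · exact h.same A'' hA'' hagr' y' hy'
    · intro y' hy' hst'
      rcases Finset.mem_insert.1 hy' with rfl | hy'
      · exact (hst' (hex A h.leg fun _ _ => rfl)).elim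
      · exact h.cert y' hy' hst'

theorem LEX_ok : P_LEX := by
  classical
  intro C Lg X R L Y A₀ hdis hleg hcard hY hA₀
  choose cb hcb using comb_exists C
  set F : Finset (List Bool) := Y.filter (fun y => C.Cl y ∧ y.length ≤ L) with hF
  have hFm : ∀ y, C.Cl y → y.length ≤ L → y ∈ F := fun y h1 h2 =>
    Finset.mem_filter.2 ⟨hY y h1 h2, h1, h2⟩
  have hmain : ∀ D : Finset (List Bool), D ⊆ F →
      (∀ z ∈ D, ∀ v, C.Cl v → v.length < z.length → v ∈ D) → ∃ A Z, Inv C Lg L cb D A Z := by
    intro D
    induction D using Finset.induction_on_max_value (fun y : List Bool => y.length) with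
    | empty =>
      intro _ _
      exact ⟨A₀, ∅, hA₀, by simp, fun _ _ _ y hy => by simp at hy, fun y hy => by simp at hy⟩
    | insert a s ha hmax ih =>
      intro hsF hdc
      have haF := Finset.mem_filter.1 (hsF (Finset.mem_insert_self a s))
      have hs : ∀ z ∈ s, ∀ v, C.Cl v → v.length < z.length → v ∈ s := by
        intro z hz v hv hlt
        rcases Finset.mem_insert.1 (hdc z (Finset.mem_insert_of_mem hz) v hv hlt) with rfl | h1
        · have := hmax z hz
          omega
        · exact h1
      have hs' : ∀ v, C.Cl v → v.length < a.length → v ∈ s := by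
        intro v hv hlt
        rcases Finset.mem_insert.1 (hdc a (Finset.mem_insert_self a s) v hv hlt) with rfl | h1
        · omega
        · exact h1
      obtain ⟨A, Z, hI⟩ := ih (fun z hz => hsF (Finset.mem_insert_of_mem hz)) hs
      exact step_inv hcb hI haF.2.1 haF.2.2 ha hs hs'
  obtain ⟨A₁, Z, hI⟩ := hmain F (fun _ h => h) (fun z hz v hv hlt => by
    have h1 := (Finset.mem_filter.1 hz).2.2
    exact hFm v hv (by omega))
  refine ⟨A₁, hI.leg, fun Q hQL hQ => ?_⟩
  have hFY : F.card ≤ Y.card := Finset.card_filter_le _ _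
  have hZ : Z.card ≤ Y.card * L := hI.card.trans (Nat.mul_le_mul_right L hFY)
  have hx : ∃ x ∈ X, ∀ v ∈ Z ∪ tl Q, v ∉ R x := by
    by_contra hc
    push Not at hc
    choose! f hf1 hf2 using hc
    have h1 : X.card ≤ (Z ∪ tl Q).card := by
      refine Finset.card_le_card_of_injOn f (fun x hx => hf1 x hx) ?_
      intro x hx x' hx' he
      by_contra hne
      exact Finset.disjoint_left.1 (hdis x hx x' hx' hne) (hf2 x hx) (by rw [he]; exact hf2 x' hx')
    have h2 := Finset.card_union_le Z (tl Q)
    have h3 := card_tl Q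
    omega
  obtain ⟨x, hxX, hx⟩ := hx
  have hA2 : ∀ v, v ∉ R x → empt (R x) A₁ v = A₁ v := fun v hv => by
    unfold empt
    rw [if_neg hv]
  have hcl : ∀ n : ℕ, ∀ y : List Bool, y.length < n → C.Cl y → y.length ≤ L →
      (C.St y (cb (empt (R x) A₁)) ↔ C.St y (cb A₁)) := by
    intro n
    induction n with
    | zero => intro y hy; omega
    | succ n ih =>
      intro y hyn hy hyL
      by_cases h1 : C.St y (cb A₁)
      · refine ⟨fun _ => h1, fun _ => ?_⟩
        by_contra h2
        obtain ⟨Q', hQ1, hQ2, hQ3⟩ := C.crt y hy _ h2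
        have hw : ∃ w ∈ R x, w ∉ tl Q' := by
          by_contra hc
          push Not at hc
          have h3 := Finset.card_le_card (show R x ⊆ tl Q' from hc)
          have h4 := card_tl Q'
          have h5 := hcard x hxX
          omega
        obtain ⟨w, hw1, hw2⟩ := hw
        have hL3 := hleg A₁ hI.leg x hxX w hw1
        have hZ3 : ∀ z ∈ Z, single (R x) w A₁ z = A₁ z := by
          intro z hz
          unfold single
          rw [if_neg (hx z (Finset.mem_union_left _ hz))]
        have hs := hI.same _ hL3 hZ3
        have h6 : ¬ C.St y (cb (single (R x) w A₁)) := by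
          refine hQ3 _ fun u hu => ?_
          refine comb_eq (hcb _) (hcb _) (fun v hv => ?_) fun v hv hc => ?_
          · subst hv
            have hvw : v ≠ w := by
              rintro rfl
              exact hw2 (mem_tl hu)
            unfold single empt
            by_cases hvR : v ∈ R x
            · rw [if_pos hvR, if_pos hvR, decide_eq_false hvw]
            · rw [if_neg hvR, if_neg hvR]
          · subst hv
            have h7 := hQ2 _ hu
            rw [List.length_cons] at h7
            rw [hs v (hFm v hc (by omega)), ih v (by omega) hc (by omega)]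
        exact h6 ((hs y (hFm y hy hyL)).2 h1)
      · refine ⟨fun h2 => ?_, fun h2 => (h1 h2).elim⟩
        obtain ⟨Q', hQ2, hQ3, hQ4⟩ := hI.cert y (hFm y hy hyL) h1
        refine (hQ3 _ (fun u hu => ?_) h2).elim
        refine comb_eq (hcb _) (hcb _) (fun v hv => ?_) fun v hv hc => ?_
        · subst hv
          exact hA2 v (hx v (Finset.mem_union_left _ (hQ4 v hu)))
        · subst hv
          have h7 := hQ2 _ hu
          rw [List.length_cons] at h7
          exact ih v (by omega) hc (by omega)
  refine ⟨x, hxX, fun O₁ O₂ h1 h2 u hu => ?_⟩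
  have e1 : O₁ = cb A₁ := comb_unique h1 (hcb A₁)
  have e2 : O₂ = cb (empt (R x) A₁) := comb_unique h2 (hcb _)
  subst e1 e2
  refine comb_eq (hcb _) (hcb _) (fun v hv => ?_) fun v hv hc => ?_
  · subst hv
    exact hA2 v (hx v (Finset.mem_union_right _ (mem_tl hu)))
  · subst hv
    have h3 := hQL _ hu
    rw [List.length_cons] at h3
    exact hcl (v.length + 1) v (by omega) hc (by omega)

end Pool.Agent.W2helper69.PF
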